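import Pool.Agent.Helper46.NB.Stmts

/-! Project NB (MP_2f9829_co), row EMB: regularisation of a state. -/

set_option autoImplicit false

namespace Pool.Agent.Helper56.NB

open Finset Pool.Agent.Helper46.NB
open scoped Classical

noncomputable section

/-- flip the coordinate `j` -/
def fl {J : Type} (x : J → Bool) (j : J) : J → Bool := Function.update x j (!(x j))

theorem fl_fl {J : Type} (x : J → Bool) (j : J) : fl (fl x j) j = x := by
  unfold fl
  ext k
  by_cases h : k = j
  · subst h; simp
  · simp [h]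

theorem fl_inj {J : Type} {x : J → Bool} {j k : J} (h : fl x j = fl x k) : j = k := by
  by_contra hne
  have := congrFun h j
  unfold fl at this
  rw [Function.update_self, Function.update_of_ne hne] at this
  simp at this

theorem fl_ne {J : Type} (x : J → Bool) (j : J) : x ≠ fl x j := by
  intro hx
  have := congrFun hx j
  unfold fl at this
  rw [Function.update_self] at this
  simp at this

/-- dummy edge -/
def dm {V J : Type} (v : V) (x : J → Bool) (j : J) : Sym2 (V × (J → Bool)) := s((v, x), (v, fl x j))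

theorem mem_dm {V J : Type} {v u : V} {x y : J → Bool} {j : J} (h : (v, x) ∈ dm u y j) :
    u = v ∧ dm u y j = dm v x j := by
  unfold dm at h ⊢
  rw [Sym2.mem_iff] at h
  rcases h with h | h
  · rw [Prod.mk.injEq] at h
    obtain ⟨rfl, rfl⟩ := h
    exact ⟨rfl, rfl⟩
  · rw [Prod.mk.injEq] at h
    obtain ⟨rfl, rfl⟩ := h
    refine ⟨rfl, ?_⟩
    rw [fl_fl, Sym2.eq_swap]

theorem dm_inj {V J : Type} {v u : V} {x y : J → Bool} {j k : J} (h : dm v x j = dm u y k) :
    v = u ∧ j = k := by
  have h1 : (v, x) ∈ dm u y k := by rw [← h]; unfold dm; exact Sym2.mem_mk_left _ _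
  obtain ⟨h2, h3⟩ := mem_dm h1
  rw [h3] at h
  refine ⟨h2.symm, ?_⟩
  unfold dm at h
  rw [Sym2.congr_right, Prod.mk.injEq] at h
  exact fl_inj h.2

theorem st_EMB : ST_EMB := by
  intro V _ E L l t D h
  obtain ⟨P, hP⟩ : ∃ P : Finset ℕ, P = E.biUnion L := ⟨_, rfl⟩
  obtain ⟨J, hJ⟩ : ∃ J : Type, J = ({c // c ∈ P} × Fin t) := ⟨_, rfl⟩
  subst hJ
  let W := V × (({c // c ∈ P} × Fin t) → Bool)
  let ok : V → ({c // c ∈ P} × Fin t) → Prop := fun v j =>
    (T E L v j.1.1).Nonempty ∧ #(T E L v j.1.1) + j.2.1 < t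
  obtain ⟨R, hR⟩ : ∃ R : Finset (Sym2 W), R = univ.filter (fun f => ∃ e ∈ E, ∃ x, f = e.map (fun v => (v, x))) := ⟨_, rfl⟩
  obtain ⟨Dm, hDm⟩ : ∃ Dm : Finset (Sym2 W), Dm = univ.filter (fun f => ∃ v x j, ok v j ∧ f = dm v x j) := ⟨_, rfl⟩
  let L₁ : Sym2 W → Finset ℕ := fun f =>
    if f.map Prod.fst ∈ E then L (f.map Prod.fst)
    else P.filter (fun c => ∃ v x, ∃ j : {c // c ∈ P} × Fin t, j.1.1 = c ∧ f = dm v x j)
  have memR : ∀ f, f ∈ R ↔ ∃ e ∈ E, ∃ x, f = e.map (fun v => (v, x)) := by
    intro f; rw [hR]; simp only [mem_filter, mem_univ, true_and]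
  have memDm : ∀ f, f ∈ Dm ↔ ∃ v x j, ok v j ∧ f = dm v x j := by
    intro f; rw [hDm]; simp only [mem_filter, mem_univ, true_and]
  have mapfst : ∀ (e : Sym2 V) (x : ({c // c ∈ P} × Fin t) → Bool),
      (e.map (fun v => (v, x))).map Prod.fst = e := by
    intro e x
    rw [Sym2.map_map]
    have : (Prod.fst ∘ fun v : V => (v, x)) = id := rfl
    rw [this, Sym2.map_id]; rfl
  have L₁R : ∀ e ∈ E, ∀ x, L₁ (e.map (fun v => (v, x))) = L e := by
    intro e he x
    simp only [L₁, mapfst, he, if_true]
  have dmfst : ∀ (v : V) (x : ({c // c ∈ P} × Fin t) → Bool) j, (dm v x j).map Prod.fst ∉ E := by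
    intro v x j hE
    apply h.loop _ hE
    unfold dm
    simp
  have L₁D : ∀ (v : V) (x : ({c // c ∈ P} × Fin t) → Bool) j, L₁ (dm v x j) = {j.1.1} := by
    intro v x j
    simp only [L₁, dmfst, if_false]
    ext c
    simp only [mem_filter, mem_singleton]
    constructor
    · rintro ⟨_, u, y, k, rfl, hk⟩
      rw [(dm_inj hk).2]
    · rintro rfl
      exact ⟨j.1.2, v, x, j, rfl, rfl⟩
  have disj : Disjoint R Dm := by
    rw [Finset.disjoint_left]
    intro f hf hf'
    obtain ⟨e, he, x, rfl⟩ := (memR f).1 hf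
    obtain ⟨v, y, j, _, hj⟩ := (memDm _).1 hf'
    apply dmfst v y j
    rw [← hj, mapfst]
    exact he
  have mapinj : ∀ x : ({c // c ∈ P} × Fin t) → Bool,
      Function.Injective (fun e : Sym2 V => e.map (fun v => (v, x))) := by
    intro x e e' hee
    have := congrArg (Sym2.map Prod.fst) hee
    simp only [mapfst] at this
    exact this
  -- real edges at a vertex
  have realv : ∀ (v : V) x f, f ∈ R → (v, x) ∈ f → ∃ e ∈ E, v ∈ e ∧ f = e.map (fun v => (v, x)) := by
    intro v x f hf hv
    obtain ⟨e, he, y, rfl⟩ := (memR f).1 hf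
    obtain ⟨a, ha, hay⟩ := Sym2.mem_map.1 hv
    rw [Prod.mk.injEq] at hay
    obtain ⟨rfl, rfl⟩ := hay
    exact ⟨e, he, ha, rfl⟩
  have dmv : ∀ (v : V) x f, f ∈ Dm → (v, x) ∈ f → ∃ j, ok v j ∧ f = dm v x j := by
    intro v x f hf hv
    obtain ⟨u, y, j, hj, rfl⟩ := (memDm f).1 hf
    obtain ⟨h1, h2⟩ := mem_dm hv
    subst h1
    exact ⟨j, hj, h2⟩
  have hTR : ∀ (v : V) x c, T R L₁ (v, x) c = (T E L v c).image (fun e => e.map (fun v => (v, x))) := by
    intro v x c
    ext f
    simp only [T, mem_filter, mem_image]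
    constructor
    · rintro ⟨hf, hv, hc⟩
      obtain ⟨e, he, hve, rfl⟩ := realv v x f hf hv
      rw [L₁R e he] at hc
      exact ⟨e, ⟨he, hve, hc⟩, rfl⟩
    · rintro ⟨e, ⟨he, hve, hc⟩, rfl⟩
      refine ⟨(memR _).2 ⟨e, he, x, rfl⟩, Sym2.mem_map.2 ⟨v, hve, rfl⟩, ?_⟩
      rw [L₁R e he]; exact hc
  have hTD0 : ∀ (v : V) x c, T E L v c = ∅ → T Dm L₁ (v, x) c = ∅ := by
    intro v x c h0
    rw [Finset.eq_empty_iff_forall_notMem]
    intro f hf
    simp only [T, mem_filter] at hf
    obtain ⟨j, hj, rfl⟩ := dmv v x f hf.1 hf.2.1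
    rw [L₁D, mem_singleton] at hf
    have := hj.1
    rw [← hf.2.2, h0] at this
    exact absurd this (by simp)
  have hTD1 : ∀ (v : V) x c (hc : c ∈ P), (T E L v c).Nonempty →
      T Dm L₁ (v, x) c = (univ.filter fun i : Fin t => #(T E L v c) + i.1 < t).image
        (fun i => dm v x (⟨c, hc⟩, i)) := by
    intro v x c hc hne
    ext f
    simp only [mem_image, mem_filter, mem_univ, true_and]
    constructor
    · intro hf
      simp only [T, mem_filter] at hf
      obtain ⟨j, hj, rfl⟩ := dmv v x f hf.1 hf.2.1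
      rw [L₁D, mem_singleton] at hf
      obtain ⟨⟨c', hc'⟩, i⟩ := j
      have hcc : c = c' := hf.2.2
      subst hcc
      exact ⟨i, hj.2, rfl⟩
    · rintro ⟨i, hi, rfl⟩
      simp only [T, mem_filter]
      refine ⟨(memDm _).2 ⟨v, x, (⟨c, hc⟩, i), ⟨hne, hi⟩, rfl⟩, Sym2.mem_mk_left _ _, ?_⟩
      rw [L₁D, mem_singleton]
  have hTU : ∀ w c, T (R ∪ Dm) L₁ w c = T R L₁ w c ∪ T Dm L₁ w c := by
    intro w c
    ext f
    simp only [T, mem_filter, mem_union]
    tauto
  have hTdisj : ∀ w c, Disjoint (T R L₁ w c) (T Dm L₁ w c) := by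
    intro w c
    rw [Finset.disjoint_left] at disj ⊢
    intro f hf hf'
    simp only [T, mem_filter] at hf hf'
    exact disj hf.1 hf'.1
  have hcardfin : ∀ a : ℕ, a ≤ t → #(univ.filter fun i : Fin t => a + i.1 < t) = t - a := by
    intro a ha
    have h1 : (univ.filter fun i : Fin t => a + i.1 < t).map Fin.valEmbedding = range (t - a) := by
      ext k
      simp only [mem_map, mem_filter, mem_univ, true_and, Fin.valEmbedding_apply, mem_range]
      constructor
      · rintro ⟨i, hi, rfl⟩; omega
      · intro hk; exact ⟨⟨k, by omega⟩, by simp; omega, rfl⟩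
    rw [← card_map Fin.valEmbedding, h1, card_range]
  refine ⟨W, inferInstance, fun v => (v, fun _ => false), R ∪ Dm, R, L₁, ?_, ?_,
    subset_union_left, ?_, ?_⟩
  · intro a b hab
    exact (Prod.mk.injEq _ _ _ _ ▸ hab).1
  · refine ⟨?_, ?_, ?_, ?_⟩
    · intro f hf
      rcases mem_union.1 hf with hf | hf
      · obtain ⟨e, he, x, rfl⟩ := (memR f).1 hf
        intro hd
        apply h.loop e he
        have : ((e.map (fun v => (v, x))).map Prod.fst).IsDiag := by
          induction e using Sym2.ind with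
          | _ a b =>
            rw [Sym2.map_mk, Sym2.mk_isDiag_iff] at hd
            rw [Sym2.map_mk, Sym2.map_mk, Sym2.mk_isDiag_iff]
            exact congrArg Prod.fst hd
        rwa [mapfst] at this
      · obtain ⟨v, x, j, _, rfl⟩ := (memDm f).1 hf
        unfold dm
        rw [Sym2.mk_isDiag_iff]
        intro hxx
        exact fl_ne x j (congrArg Prod.snd hxx)
    · intro f hf
      rcases mem_union.1 hf with hf | hf
      · obtain ⟨e, he, x, rfl⟩ := (memR f).1 hf
        rw [L₁R e he, h.list e he]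
      · obtain ⟨v, x, j, hj, rfl⟩ := (memDm f).1 hf
        rw [L₁D, card_singleton]
        obtain ⟨e, he⟩ := hj.1
        simp only [T, mem_filter] at he
        rw [← h.list e he.1]
        exact card_pos.2 ⟨_, he.2.2⟩
    · rintro ⟨v, x⟩ c
      by_cases hne : (T E L v c).Nonempty
      · right
        have hc : c ∈ P := by
          obtain ⟨e, he⟩ := hne
          simp only [T, mem_filter] at he
          rw [hP, mem_biUnion]
          exact ⟨e, he.1, he.2.2⟩
        rw [hTU, card_union_of_disjoint (hTdisj _ _), hTR, hTD1 v x c hc hne,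
          card_image_of_injective _ (mapinj x), card_image_of_injective, hcardfin _ (h.col v c)]
        · have := h.col v c
          omega
        · intro i i' hii
          have := (dm_inj hii).2
          rw [Prod.mk.injEq] at this
          exact this.2
      · left
        rw [not_nonempty_iff_eq_empty] at hne
        rw [hTU, hTR, hTD0 v x c hne, hne, image_empty, union_empty]
    · rintro ⟨v, x⟩
      have h1 : (R ∪ Dm).filter (fun f => (v, x) ∈ f) ⊆
          (E.filter fun e => v ∈ e).image (fun e => e.map (fun v => (v, x))) ∪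
          ((univ.filter fun c : {c // c ∈ P} => (T E L v c.1).Nonempty) ×ˢ
              (univ : Finset (Fin t))).image (fun j => dm v x j) := by
        intro f hf
        rw [mem_filter, mem_union] at hf
        rw [mem_union]
        rcases hf.1 with h2 | h2
        · obtain ⟨e, he, hve, rfl⟩ := realv v x f h2 hf.2
          exact Or.inl (mem_image_of_mem _ (mem_filter.2 ⟨he, hve⟩))
        · obtain ⟨j, hj, rfl⟩ := dmv v x f h2 hf.2
          exact Or.inr (mem_image_of_mem _
            (mem_product.2 ⟨mem_filter.2 ⟨mem_univ _, hj.1⟩, mem_univ _⟩))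
      have h2 : #((R ∪ Dm).filter (fun f => (v, x) ∈ f)) ≤ D + D * l * t := by
        refine (card_le_card h1).trans ((card_union_le _ _).trans (add_le_add ?_ ?_))
        · exact card_image_le.trans (h.deg v)
        refine card_image_le.trans ?_
        rw [card_product, card_univ, Fintype.card_fin]
        refine Nat.mul_le_mul_right _ ?_
        have h2 : (univ.filter fun c : {c // c ∈ P} => (T E L v c.1).Nonempty).map
            (Function.Embedding.subtype _) ⊆ (E.filter fun e => v ∈ e).biUnion L := by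
          intro c hc
          simp only [mem_map, mem_filter, mem_univ, true_and, Function.Embedding.subtype_apply,
            Subtype.exists, exists_and_right, exists_eq_right] at hc
          obtain ⟨_, e, he⟩ := hc
          simp only [T, mem_filter] at he
          rw [mem_biUnion]
          exact ⟨e, mem_filter.2 ⟨he.1, he.2.1⟩, he.2.2⟩
        rw [← card_map (Function.Embedding.subtype _)]
        refine (card_le_card h2).trans (card_biUnion_le.trans ?_)
        calc ∑ e ∈ E.filter (fun e => v ∈ e), #(L e)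
            = ∑ e ∈ E.filter (fun e => v ∈ e), l := by
              refine sum_congr rfl fun e he => h.list e (mem_filter.1 he).1
          _ = #(E.filter fun e => v ∈ e) * l := by rw [sum_const, smul_eq_mul]
          _ ≤ D * l := Nat.mul_le_mul_right _ (h.deg v)
      convert h2 using 3
  · intro f hf
    obtain ⟨e, he, x, rfl⟩ := (memR f).1 hf
    rw [L₁R e he, h.list e he]
  · intro e he
    exact ⟨(memR _).2 ⟨e, he, _, rfl⟩, L₁R e he _⟩

end

end Pool.Agent.Helper56.NB
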